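import Pool.Agent.R963.KH.Stm

open scoped ContDiff Topology NNReal
open Set Filter Function

namespace Pool.Agent.R963.KH

theorem comp_aux_smooth {U : Set V} {X : V → V} (hU : IsOpen U) (hX : ContDiffOn ℝ ∞ X U)
    {g : V → ℝ} (hg : ContDiff ℝ ∞ g) (hs : tsupport g ⊆ U) :
    ContDiff ℝ ∞ (fun x => g x • X x) := by
  rw [contDiff_iff_contDiffAt]
  intro x
  by_cases hx : x ∈ U
  · exact hg.contDiffAt.smul (hX.contDiffAt (hU.mem_nhds hx))
  · have hx' : x ∉ tsupport g := fun h => hx (hs h)
    have h0 : (fun x => g x • X x) =ᶠ[𝓝 x] fun _ => (0 : V) := by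
      have := (isClosed_tsupport g).isOpen_compl.mem_nhds hx'
      filter_upwards [this] with y hy
      have : g y = 0 := image_eq_zero_of_notMem_tsupport hy
      simp [this]
    exact contDiffAt_const.congr_of_eventuallyEq h0

theorem t_comp : S_comp := by
  intro U X hU hX
  rcases eq_empty_or_nonempty U with (rfl | h's)
  · refine ⟨fun _ => 0, contDiff_const, fun _ => le_rfl, by simp, ?_, 0, ?_⟩
    · simp only [zero_smul]; exact contDiff_const
    · simp only [zero_smul]; exact LipschitzWith.const _
  let ι := { f : V → ℝ // tsupport f ⊆ U ∧ HasCompactSupport f ∧ ContDiff ℝ ∞ f ∧ range f ⊆ Icc 0 1 }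
  obtain ⟨T, T_count, hT⟩ : ∃ T : Set ι, T.Countable ∧ ⋃ f ∈ T, support (f : V → ℝ) = U := by
    have : ⋃ f : ι, (f : V → ℝ).support = U := by
      refine Subset.antisymm (iUnion_subset fun f => (subset_tsupport _).trans f.2.1) ?_
      intro x hx
      rcases exists_contDiff_tsupport_subset (n := ⊤) (hU.mem_nhds hx) with ⟨f, hf⟩
      let g : ι := ⟨f, hf.1, hf.2.1, hf.2.2.1, hf.2.2.2.1⟩
      have : x ∈ support (g : V → ℝ) := by
        simp only [g, hf.2.2.2.2, mem_support, Ne, one_ne_zero, not_false_iff]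
      exact mem_iUnion_of_mem _ this
    simp_rw [← this]
    apply TopologicalSpace.isOpen_iUnion_countable
    rintro ⟨f, hf⟩
    exact hf.2.2.1.continuous.isOpen_support
  obtain ⟨g0, hg⟩ : ∃ g0 : ℕ → ι, T = range g0 := by
    apply Countable.exists_eq_range T_count
    rcases eq_empty_or_nonempty T with (rfl | hT)
    · simp only [← hT, mem_empty_iff_false, iUnion_of_empty, iUnion_empty, Set.not_nonempty_empty]
        at h's
    · exact hT
  let g : ℕ → V → ℝ := fun n => (g0 n).1
  have g_ts : ∀ n, tsupport (g n) ⊆ U := fun n => (g0 n).2.1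
  have g_s : ∀ n, support (g n) ⊆ U := fun n => (subset_tsupport _).trans (g_ts n)
  have s_g : ∀ x ∈ U, ∃ n, x ∈ support (g n) := fun x hx ↦ by
    rw [← hT] at hx
    obtain ⟨i, iT, hi⟩ : ∃ i ∈ T, x ∈ support (i : V → ℝ) := by
      simpa only [mem_iUnion, exists_prop] using! hx
    obtain ⟨n, hn⟩ := hg ▸ iT
    exact ⟨n, by simp only [g, hn]; exact hi⟩
  have g_smooth : ∀ n, ContDiff ℝ ∞ (g n) := fun n => (g0 n).2.2.2.1
  have g_comp_supp : ∀ n, HasCompactSupport (g n) := fun n => (g0 n).2.2.1
  have g_nonneg : ∀ n x, 0 ≤ g n x := fun n x => ((g0 n).2.2.2.2 (mem_range_self x)).1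
  let G : ℕ → V → ℝ × V := fun n x => (g n x, g n x • X x)
  have G_smooth : ∀ n, ContDiff ℝ ∞ (G n) := fun n =>
    (g_smooth n).prodMk (comp_aux_smooth hU hX (g_smooth n) (g_ts n))
  have G_comp : ∀ n, HasCompactSupport (G n) := by
    intro n
    refine (g_comp_supp n).mono ?_
    intro x hx
    simp only [mem_support, ne_eq, G] at hx ⊢
    intro h0
    apply hx
    rw [h0]; simp
  obtain ⟨δ, δpos, c, δc, c_lt⟩ :
      ∃ δ : ℕ → ℝ≥0, (∀ i : ℕ, 0 < δ i) ∧ ∃ c : NNReal, HasSum δ c ∧ c < 1 :=
    NNReal.exists_pos_sum_of_countable one_ne_zero ℕ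
  have : ∀ n : ℕ, ∃ r : ℝ, 0 < r ∧ ∀ i ≤ n + 1, ∀ x, ‖iteratedFDeriv ℝ i (r • G n) x‖ ≤ δ n := by
    intro n
    have : ∀ i, ∃ R, ∀ x, ‖iteratedFDeriv ℝ i (fun x => G n x) x‖ ≤ R := by
      intro i
      have : BddAbove (range fun x => ‖iteratedFDeriv ℝ i (fun x : V => G n x) x‖) := by
        apply ((G_smooth n).continuous_iteratedFDeriv
          (mod_cast le_top)).norm.bddAbove_range_of_hasCompactSupport
        apply HasCompactSupport.comp_left _ norm_zero
        apply (G_comp n).iteratedFDeriv
      rcases this with ⟨R, hR⟩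
      exact ⟨R, fun x => hR (mem_range_self _)⟩
    choose R hR using this
    let M := max (((Finset.range (n + 2)).image R).max' (by simp)) 1
    have δnpos : 0 < δ n := δpos n
    have IR : ∀ i ≤ n + 1, R i ≤ M := by
      intro i hi
      refine le_trans ?_ (le_max_left _ _)
      apply Finset.le_max'
      apply Finset.mem_image_of_mem
      simp only [Finset.mem_range]
      lia
    refine ⟨M⁻¹ * δ n, by positivity, fun i hi x => ?_⟩
    calc
      ‖iteratedFDeriv ℝ i ((M⁻¹ * δ n) • G n) x‖ = ‖(M⁻¹ * δ n) • iteratedFDeriv ℝ i (G n) x‖ := by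
        rw [iteratedFDeriv_const_smul_apply]
        exact (G_smooth n).contDiffAt.of_le (mod_cast le_top)
      _ = M⁻¹ * δ n * ‖iteratedFDeriv ℝ i (G n) x‖ := by
        rw [norm_smul _ (iteratedFDeriv ℝ i (G n) x), Real.norm_of_nonneg]; positivity
      _ ≤ M⁻¹ * δ n * M := by gcongr; exact (hR i x).trans (IR i hi)
      _ = δ n := by simp [field]
  choose r rpos hr using this
  have rG_smooth : ∀ n, ContDiff ℝ ∞ (r n • G n) := fun n => contDiff_const.smul (G_smooth n)
  have S : ∀ x, Summable fun n => (r n • G n) x := fun x ↦ by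
    refine .of_nnnorm_bounded δc.summable fun n => ?_
    rw [← NNReal.coe_le_coe, coe_nnnorm]
    simpa only [norm_iteratedFDeriv_zero] using! hr n 0 (Nat.zero_le _) x
  have hδs : Summable (fun n => (δ n : ℝ)) := NNReal.summable_coe.2 δc.summable
  let F : V → ℝ × V := fun x => ∑' n, (r n • G n) x
  have F_smooth : ContDiff ℝ ∞ F := by
    refine contDiff_tsum_of_eventually rG_smooth (fun k _ => hδs) ?_
    intro i _
    simp only [Nat.cofinite_eq_atTop, Filter.eventually_atTop]
    exact ⟨i, fun n hn x => hr _ _ (by lia) _⟩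
  have F_has : ∀ x, HasSum (fun n => (r n • G n) x) (F x) := fun x => (S x).hasSum
  have F_fst : ∀ x, HasSum (fun n => r n * g n x) (F x).1 := fun x => by
    have := (F_has x).map (AddMonoidHom.fst ℝ V) continuous_fst
    simpa [Function.comp_def, G] using this
  have F_snd : ∀ x, HasSum (fun n => r n • (g n x • X x)) (F x).2 := fun x => by
    have := (F_has x).map (AddMonoidHom.snd ℝ V) continuous_snd
    simpa [Function.comp_def, G] using this
  have F_eq : ∀ x, (F x).2 = (F x).1 • X x := fun x => by
    refine (F_snd x).unique ?_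
    have := (F_fst x).smul_const (X x)
    simpa [smul_smul] using this
  refine ⟨fun x => (F x).1, contDiff_fst.comp F_smooth, ?_, ?_, ?_, ?_⟩
  · intro w
    exact (F_fst w).nonneg (fun n => mul_nonneg (rpos n).le (g_nonneg n w))
  · intro w
    constructor
    · intro h
      by_contra hw
      have h0 : ∀ n, g n w = 0 := by
        intro n
        by_contra hne
        exact hw (g_s n hne)
      have : (F w).1 = 0 := by
        refine (F_fst w).unique ?_
        simp only [h0, mul_zero]
        exact hasSum_zero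
      change 0 < (F w).1 at h
      rw [this] at h
      exact lt_irrefl _ h
    · intro hw
      obtain ⟨n, hn⟩ := s_g w hw
      have hpos : 0 < r n * g n w := mul_pos (rpos n) (lt_of_le_of_ne (g_nonneg n w) (Ne.symm hn))
      refine lt_of_lt_of_le hpos ?_
      exact le_hasSum (F_fst w) n (fun j _ => mul_nonneg (rpos j).le (g_nonneg j w))
  · have : (fun w => (F w).1 • X w) = fun w => (F w).2 := by
      funext w; exact (F_eq w).symm
    rw [this]
    exact contDiff_snd.comp F_smooth
  · have h1 : (fun w => (F w).1 • X w) = fun w => (F w).2 := by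
      funext w; exact (F_eq w).symm
    rw [h1]
    have hlipF : LipschitzWith c F := by
      refine LipschitzWith.of_dist_le_mul ?_
      intro x y
      have hn : ∀ n, dist ((r n • G n) x) ((r n • G n) y) ≤ δ n * dist x y := by
        intro n
        have hL : LipschitzWith (δ n) (r n • G n) := by
          refine lipschitzWith_of_nnnorm_fderiv_le ((rG_smooth n).differentiable (by simp)) ?_
          intro z
          rw [← NNReal.coe_le_coe, coe_nnnorm, ← norm_iteratedFDeriv_one]
          exact hr n 1 (by lia) z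
        exact hL.dist_le_mul x y
      have hs1 : HasSum (fun n => (r n • G n) x - (r n • G n) y) (F x - F y) :=
        (F_has x).sub (F_has y)
      rw [dist_eq_norm]
      have hs2 : HasSum (fun n => (δ n : ℝ) * dist x y) (c * dist x y) :=
        (NNReal.hasSum_coe.2 δc).mul_right _
      refine hs1.norm_le_of_bounded hs2 ?_
      intro n
      rw [← dist_eq_norm]
      exact hn n
    exact ⟨1 * c, LipschitzWith.prod_snd.comp hlipF⟩

end Pool.Agent.R963.KH
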